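import Pool.Agent.W8.KU.Stm

/-! Project KU, part Bij: small Lipschitz perturbations of the identity. -/

set_option autoImplicit false

open scoped Topology ContDiff NNReal
open MeasureTheory Metric

namespace Pool.Agent.W881.KU

open Pool.Agent.W8.KU

theorem Bij_proof : Pool.Agent.W8.KU.Bij := by
  intro f hf hlip
  refine ⟨⟨?_, ?_⟩, ?_⟩
  · intro x y hxy
    have h1 := hlip x y
    rw [hxy] at h1
    have e : f y - x - (f y - y) = -(x - y) := by abel
    rw [e, norm_neg] at h1
    have h2 : ‖x - y‖ = 0 := by
      have := norm_nonneg (x - y)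
      linarith
    exact sub_eq_zero.1 (norm_eq_zero.1 h2)
  · intro y
    have hL : LipschitzWith (1 / 2 : ℝ≥0) (fun x => y - (f x - x)) := by
      apply LipschitzWith.of_dist_le_mul
      intro x x'
      rw [dist_eq_norm, dist_eq_norm]
      have e : y - (f x - x) - (y - (f x' - x')) = -((f x - x) - (f x' - x')) := by abel
      rw [e, norm_neg]
      have := hlip x x'
      simpa using this
    have hC : ContractingWith (1 / 2 : ℝ≥0) (fun x => y - (f x - x)) := by
      refine ⟨?_, hL⟩
      rw [← NNReal.coe_lt_coe]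
      norm_num
    refine ⟨hC.fixedPoint _, ?_⟩
    have h1 : y - (f (hC.fixedPoint _) - hC.fixedPoint _) = hC.fixedPoint _ :=
      hC.fixedPoint_isFixedPt
    have h2 : y = f (hC.fixedPoint _) := by
      have := congrArg (fun z => z + (f (hC.fixedPoint _) - hC.fixedPoint _)) h1
      simpa using this
    exact h2.symm
  · intro x
    have h1 := (hf x).hasFDerivAt
    have h2 : HasFDerivAt (fun x => f x - x) (fderiv ℝ f x - ContinuousLinearMap.id ℝ E3) x :=
      h1.sub (hasFDerivAt_id x)
    have hL : LipschitzWith (1 / 2 : ℝ≥0) (fun x => f x - x) := by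
      apply LipschitzWith.of_dist_le_mul
      intro x x'
      rw [dist_eq_norm, dist_eq_norm]
      have := hlip x x'
      simpa using this
    have h3 := h2.le_of_lipschitz hL
    have hinj : Function.Injective ((fderiv ℝ f x : E3 →L[ℝ] E3) : E3 →ₗ[ℝ] E3) := by
      rw [injective_iff_map_eq_zero]
      intro v hv
      have hv' : (fderiv ℝ f x) v = 0 := hv
      have h4 := (fderiv ℝ f x - ContinuousLinearMap.id ℝ E3).le_opNorm v
      have h5 : (fderiv ℝ f x - ContinuousLinearMap.id ℝ E3) v = -v := by
        show (fderiv ℝ f x) v - v = -v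
        rw [hv', zero_sub]
      rw [h5, norm_neg] at h4
      have h6 : ‖v‖ ≤ (1 / 2 : ℝ) * ‖v‖ := by
        refine h4.trans (mul_le_mul_of_nonneg_right ?_ (norm_nonneg _))
        refine h3.trans ?_
        norm_num
      have h7 : ‖v‖ = 0 := by
        have := norm_nonneg v
        linarith
      exact norm_eq_zero.1 h7
    refine ⟨(LinearEquiv.ofInjectiveEndo _ hinj).toContinuousLinearEquiv, ?_⟩
    have e : (((LinearEquiv.ofInjectiveEndo _ hinj).toContinuousLinearEquiv : E3 ≃L[ℝ] E3) :
        E3 →L[ℝ] E3) = fderiv ℝ f x := by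
      ext v
      rfl
    rw [e]
    exact h1

end Pool.Agent.W881.KU
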